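import Pool.Agent.R538.EB.In

/-!
# The outcome of Edge Blocking on directed graphs with cycles is EXPTIME-complete

For each of the three outcomes (the player to move can force a win, the other player can, draw).

Idea of the lower bound (reduction from alternating Boolean register machines).  One control token
walks on control vertices, with edges of Left and of Right in alternation.  The region of register
`j` has four vertices `p0`, `p1`, `q`, `t`, three of which are occupied; the register holds `b` when
the free vertex (the hole) is `pb`, it is lifted when the hole is `q`, and dead when the hole is
`t`.  Right can move the hole between `p0`, `p1` and `q`, Left can move it from `q` to `t`.  A player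
challenges the state of a register by moving the control token into the hole, which is possible only
if the hole is at the claimed vertex; then this region is full and nothing in it can move any more.
When the control token is out of play the player to move loses iff the number of lifted holes is
even, and so every challenge that can be made wins, and every deviation from the intended play is
punished.
-/

set_option autoImplicit false

namespace Pool.Agent.Results.MP_817c3f_lc.EdgeBlockingExptimeComplete

open Pool.Agent.NPC Pool.Agent.R538.EB Pool.Agent.H820R2.SS

/-- Completeness for `EXPTIME` under polynomial-time many-one reductions. -/
def Complete (L : Set (List Bool)) : Prop :=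
  InEXPTIME L ∧ ∀ L' : Set (List Bool), InEXPTIME L' → Reduces L' L

/-- The outcome problem: the positions that have the outcome `W`. -/
def Outcome (W : Desc → Prop) : Set (List Bool) := lang (fun A : Desc => IsPosition A ∧ W A)

/-- **Deciding the outcome of an Edge Blocking position is `EXPTIME`-complete**: for each of the
three outcomes (the player to move can force a win, the other player can, neither can). Hence none
of these problems is in `P`. -/
theorem result (W : Desc → Prop) (hW : W = MoverWins ∨ W = OtherWins ∨ W = Drawn) :
    Complete (Outcome W) ∧ ¬ InP (Outcome W) := by
  have h0 : Complete (Outcome W) :=
    ⟨(Pool.Agent.R538.EB.In.exp_of hW).inEXPTIME, fun L' hL' =>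
      Pool.Agent.R538.EB.In.hard_of hW hL'⟩
  refine ⟨h0, fun hP => ?_⟩
  obtain ⟨L', h1, h2⟩ := exists_exptime_not_p
  exact h2 (InP.of_reduces (h0.2 L' h1) hP)

end Pool.Agent.Results.MP_817c3f_lc.EdgeBlockingExptimeComplete
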